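import Pool.Agent.Y790.TG.Fin
import Pool.Agent.Y790.TG.Decomp
import Pool.Agent.Y790.TG.Harm

/-!
# For every `k` all but finitely many balanced trees with at most `k` leaves decompose `K_{2n-1,2n-1}`

The trees with at most `k` leaves and sufficiently many vertices have an `α`-labelling
(`Pool.Agent.Y790.TG.allTreeG`, the construction is described in `MP_5799c5_co/FewLeaves`); the copies of the
tree in `K_{m,m}`, `m` the number of its edges, are its translates (Rosa).
-/

set_option autoImplicit false

namespace Pool.Agent.Results.MP_5cebc8_co.FewLeaves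

/-- For every `k` there is `N` such that for every `n` and every finite tree `T` with `n` vertices in each
colour class, at most `k` leaves (vertices of degree one) and at least `N` vertices, the edges of
`K_{2n-1,2n-1}` can be partitioned into copies of `T`: there is a family of injective maps `φ i` of the
vertices of `T` to the vertices of `K_{2n-1,2n-1}` such that edges go to edges and every edge of
`K_{2n-1,2n-1}` is the image of exactly one edge of `T` under exactly one of the maps. -/
theorem result (k : ℕ) : ∃ N : ℕ, 2 ≤ N ∧ ∀ (n : ℕ) (V : Type) [Fintype V] (T : SimpleGraph V), T.IsTree →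
    (∃ c : V → Bool, (∀ u v, T.Adj u v → c u ≠ c v) ∧
      Fintype.card {v // c v = true} = n ∧ Fintype.card {v // c v = false} = n) →
    {x : V | (T.neighborSet x).ncard = 1}.ncard ≤ k → N ≤ Fintype.card V →
    ∃ (ι : Type) (φ : ι → V → Fin (2 * n - 1) ⊕ Fin (2 * n - 1)),
      (∀ i, Function.Injective (φ i)) ∧
      (∀ i u v, T.Adj u v →
        (completeBipartiteGraph (Fin (2 * n - 1)) (Fin (2 * n - 1))).Adj (φ i u) (φ i v)) ∧
      ∀ e ∈ (completeBipartiteGraph (Fin (2 * n - 1)) (Fin (2 * n - 1))).edgeSet,
        ∃! p : ι × T.edgeSet, Sym2.map (φ p.1) p.2.val = e := by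
  obtain ⟨N, hN⟩ := Pool.Agent.Y790.TG.allTreeG k
  refine ⟨max 2 N, le_max_left _ _, ?_⟩
  rintro n V _ T hT ⟨c, hc, hc1, hc2⟩ hk hV
  have h := (Pool.Agent.Y790.TG.decomp V T hT ((le_max_left _ _).trans hV)
    (hN V T hT hk ((le_max_right _ _).trans hV)) 1 1 le_rfl le_rfl).1
  have h1 : Fintype.card V = 2 * n := by
    have h2 := Fintype.card_subtype_compl (fun v => c v = true)
    have h3 : Fintype.card {v // ¬ c v = true} = Fintype.card {v // c v = false} := by
      apply Fintype.card_congr
      exact Equiv.subtypeEquivRight (fun v => by simp)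
    have h4 : Fintype.card {v // c v = true} ≤ Fintype.card V := Fintype.card_subtype_le _
    omega
  have h5 : T.edgeSet.ncard * 1 = 2 * n - 1 := by
    rw [Pool.Agent.Y790.TG.Harm.ncard_edge T hT]
    omega
  rw [h5] at h
  exact h

end Pool.Agent.Results.MP_5cebc8_co.FewLeaves
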